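import Pool.Agent.J4H93.HN.Stm

/-!
# Project HN: piece (SZ)
-/

set_option autoImplicit false

open Finset

namespace Pool.Agent.J4H55.HN

open Pool.Agent.J4H93.HN

theorem prime_dvd_prod {T : Finset ℕ} (hT : ∀ p ∈ T, p.Prime) {p : ℕ} (hp : p.Prime)
    (h : p ∣ ∏ q ∈ T, q) : p ∈ T := by
  obtain ⟨q, hq, h1⟩ := (Prime.dvd_finset_prod_iff hp.prime _).1 h
  have h2 := (Nat.prime_dvd_prime_iff_eq hp (hT q hq)).1 h1
  rw [h2]
  exact hq

theorem sq_prod {T : Finset ℕ} (hT : ∀ p ∈ T, p.Prime) : Squarefree (∏ q ∈ T, q) := by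
  classical
  induction T using Finset.induction_on with
  | empty => simp
  | insert a s ha ih =>
    rw [Finset.prod_insert ha]
    have h1 := hT a (mem_insert_self _ _)
    have h2 : ∀ p ∈ s, p.Prime := fun p hp => hT p (mem_insert_of_mem hp)
    refine (Nat.squarefree_mul ?_).2 ⟨h1.prime.squarefree, ih h2⟩
    rw [Nat.Prime.coprime_iff_not_dvd h1]
    intro h3
    exact ha (prime_dvd_prod h2 h1 h3)

theorem t_SZ : S_SZ := by
  intro Y k P0 P1 τ hP n hn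
  obtain ⟨z, hz, rfl⟩ := Finset.mem_image.1 hn
  obtain ⟨h1, h2⟩ := Finset.mem_product.1 hz
  obtain ⟨hT, hTc⟩ := Finset.mem_powersetCard.1 h1
  obtain ⟨hU, hUc⟩ := Finset.mem_powersetCard.1 h2
  have hTp : ∀ p ∈ z.1, p.Prime := fun p hp => (hP.p0 p (hT hp)).1
  have hUp : ∀ p ∈ z.2, p.Prime := fun p hp => (hP.p1 p (hU hp)).1
  have hY := hP.hY
  have hk := hP.k2
  have hT1 : 1 ≤ ∏ p ∈ z.1, p := Finset.one_le_prod' fun p hp => (hTp p hp).one_le
  refine ⟨?_, ?_, ?_, ?_⟩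
  · have h3 : Y ^ 319 ≤ ∏ q ∈ z.2, q := by
      calc Y ^ 319 = ∏ _q ∈ z.2, Y ^ 29 := by
            rw [Finset.prod_const, hUc, ← pow_mul]
        _ ≤ ∏ q ∈ z.2, q := Finset.prod_le_prod' fun q hq => (hP.p1 q (hU hq)).2.1.le
    calc Y ^ 319 = 1 * Y ^ 319 := (one_mul _).symm
      _ ≤ _ := Nat.mul_le_mul hT1 h3
  · have h3 : ∏ q ∈ z.2, q ≤ Y ^ 330 := by
      calc ∏ q ∈ z.2, q ≤ ∏ _q ∈ z.2, Y ^ 30 :=
            Finset.prod_le_prod' fun q hq => (hP.p1 q (hU hq)).2.2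
        _ = Y ^ 330 := by rw [Finset.prod_const, hUc, ← pow_mul]
    have h4 : ∏ p ∈ z.1, p ≤ Y ^ 30 := by
      have h5 : (∏ p ∈ z.1, p) ^ k ≤ (Y ^ 30) ^ k := by
        rw [← Finset.prod_pow]
        calc ∏ p ∈ z.1, p ^ k ≤ ∏ _p ∈ z.1, Y ^ 30 :=
              Finset.prod_le_prod' fun p hp => (hP.p0 p (hT hp)).2
          _ = (Y ^ 30) ^ k := by rw [Finset.prod_const, hTc]
      exact (Nat.pow_le_pow_iff_left (by omega)).1 h5
    calc (∏ p ∈ z.1, p) * ∏ q ∈ z.2, q ≤ Y ^ 30 * Y ^ 330 := Nat.mul_le_mul h4 h3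
      _ = Y ^ 360 := by rw [← pow_add]
  · refine (Nat.squarefree_mul ?_).2 ⟨sq_prod hTp, sq_prod hUp⟩
    refine Nat.Coprime.prod_left fun p hp => Nat.Coprime.prod_right fun q hq => ?_
    rw [Nat.coprime_primes (hTp p hp) (hUp q hq)]
    rintro rfl
    exact Finset.disjoint_left.1 hP.dis (hT hp) (hU hq)
  · intro p hp h3
    rcases (Nat.Prime.dvd_mul hp).1 h3 with h4 | h4
    · exact Finset.mem_union_left _ (hT (prime_dvd_prod hTp hp h4))
    · exact Finset.mem_union_right _ (hU (prime_dvd_prod hUp hp h4))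

end Pool.Agent.J4H55.HN
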