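import Pool.Agent.J4H93.HN.Stm

/-!
# Project HN: piece (TAIL)
-/

set_option autoImplicit false

open Finset

namespace Pool.Agent.J4H55.HN

open Pool.Agent.J4H93.HN

theorem sum_wt (B : Finset ℕ) (q : ℝ) (a : ℕ → ℝ) :
    ∑ S ∈ B.powerset, wt B q S * ∏ n ∈ S, a n = ∏ n ∈ B, (q * a n + (1 - q)) := by
  classical
  rw [Finset.prod_add]
  refine Finset.sum_congr rfl fun S hS => ?_
  have h1 := Finset.mem_powerset.1 hS
  rw [Finset.prod_mul_distrib, Finset.prod_const, Finset.prod_const, Finset.card_sdiff_of_subset h1, wt]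
  ring

theorem exp_lin {t : ℝ} (h0 : 0 ≤ t) (h1 : t ≤ 1) : Real.exp t ≤ 1 + (Real.exp 1 - 1) * t := by
  have h2 := convexOn_exp.2 (Set.mem_univ (0 : ℝ)) (Set.mem_univ (1 : ℝ)) (sub_nonneg.2 h1) h0
    (by ring)
  simp only [smul_eq_mul, mul_zero, mul_one, zero_add, Real.exp_zero] at h2
  linarith

theorem t_TAIL : S_TAIL := by
  intro B N hN hB hR
  have hN0 : (0 : ℝ) < N := by exact_mod_cast hN
  have hR0 : 0 < R B := by linarith
  have hn0 : ∀ n ∈ B, (0 : ℝ) < n := fun n hn => by
    have := hB n hn
    exact_mod_cast lt_of_lt_of_le hN this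
  have hNn : ∀ n ∈ B, (N : ℝ) ≤ n := fun n hn => by exact_mod_cast hB n hn
  obtain ⟨q, hq⟩ : ∃ q, q = 1 / R B := ⟨_, rfl⟩
  have hq0 : 0 < q := by rw [hq]; positivity
  have hq1 : q ≤ 1 / 2 := by
    rw [hq]
    exact one_div_le_one_div_of_le two_pos hR
  have hqR : q * R B = 1 := by rw [hq]; field_simp
  rw [← hq]
  have hwt : ∀ S, 0 ≤ wt B q S := fun S => by
    unfold wt
    have : 0 ≤ 1 - q := by linarith
    positivity
  constructor
  · have h1 : ∑ S ∈ B.powerset.filter (fun S => 2 ≤ R S), wt B q S ≤
        ∑ S ∈ B.powerset, Real.exp (-2 * N) * (wt B q S * ∏ n ∈ S, Real.exp (N / n)) := by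
      calc ∑ S ∈ B.powerset.filter (fun S => 2 ≤ R S), wt B q S
          ≤ ∑ S ∈ B.powerset.filter (fun S => 2 ≤ R S),
              Real.exp (-2 * N) * (wt B q S * ∏ n ∈ S, Real.exp (N / n)) := by
            refine Finset.sum_le_sum fun S hS => ?_
            have h2 := (Finset.mem_filter.1 hS).2
            have h3 : ∏ n ∈ S, Real.exp ((N : ℝ) / n) = Real.exp (N * R S) := by
              rw [← Real.exp_sum, R, Finset.mul_sum]
              congr 1
              refine Finset.sum_congr rfl fun n _ => ?_
              ring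
            rw [h3, mul_left_comm, ← Real.exp_add]
            have h4 : (1 : ℝ) ≤ Real.exp (-2 * N + N * R S) := by
              rw [← Real.exp_zero]
              apply Real.exp_le_exp.2
              nlinarith
            exact le_mul_of_one_le_right (hwt S) h4
        _ ≤ _ := by
            refine Finset.sum_le_sum_of_subset_of_nonneg (Finset.filter_subset _ _) fun S _ _ => ?_
            have := hwt S
            positivity
    refine h1.trans ?_
    rw [← Finset.mul_sum, sum_wt]
    have h2 : ∏ n ∈ B, (q * Real.exp ((N : ℝ) / n) + (1 - q)) ≤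
        Real.exp ((Real.exp 1 - 1) * N) := by
      calc ∏ n ∈ B, (q * Real.exp ((N : ℝ) / n) + (1 - q))
          ≤ ∏ n ∈ B, Real.exp (q * ((Real.exp 1 - 1) * (N / n))) := by
            refine Finset.prod_le_prod (fun n _ => ?_) fun n hn => ?_
            · have h3 := Real.exp_pos ((N : ℝ) / n)
              have : 0 ≤ 1 - q := by linarith
              positivity
            · have h3 := exp_lin (t := (N : ℝ) / n) (by have := hn0 n hn; positivity)
                ((div_le_one (hn0 n hn)).2 (hNn n hn))
              have h4 := Real.add_one_le_exp (q * ((Real.exp 1 - 1) * (N / n)))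
              nlinarith
        _ = Real.exp ((Real.exp 1 - 1) * N) := by
            rw [← Real.exp_sum, ← Finset.mul_sum, ← Finset.mul_sum]
            congr 1
            have h3 : ∑ n ∈ B, (N : ℝ) / n = N * R B := by
              rw [R, Finset.mul_sum]
              exact Finset.sum_congr rfl fun n _ => by ring
            rw [h3]
            linear_combination (Real.exp 1 - 1) * N * hqR
    calc Real.exp (-2 * N) * ∏ n ∈ B, (q * Real.exp ((N : ℝ) / n) + (1 - q))
        ≤ Real.exp (-2 * N) * Real.exp ((Real.exp 1 - 1) * N) :=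
          mul_le_mul_of_nonneg_left h2 (Real.exp_pos _).le
      _ = Real.exp (-2 * N + (Real.exp 1 - 1) * N) := by rw [← Real.exp_add]
      _ ≤ Real.exp (-(N : ℝ) / 4) := by
          apply Real.exp_le_exp.2
          have h3 := Real.exp_one_lt_d9
          nlinarith
  · unfold wt
    rw [Finset.card_empty, pow_zero, one_mul, Nat.sub_zero]
    have h1 : (N : ℝ) ≤ q * B.card := by
      have h2 : R B ≤ B.card / N := by
        calc R B = ∑ n ∈ B, (1 : ℝ) / n := rfl
          _ ≤ ∑ _n ∈ B, (1 : ℝ) / N :=
              Finset.sum_le_sum fun n hn => one_div_le_one_div_of_le hN0 (hNn n hn)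
          _ = B.card / N := by rw [Finset.sum_const, nsmul_eq_mul]; ring
      have h3 : N * R B ≤ B.card := by
        rw [le_div_iff₀ hN0] at h2
        linarith
      calc (N : ℝ) = q * (N * R B) := by linear_combination (-(N : ℝ)) * hqR
        _ ≤ q * B.card := mul_le_mul_of_nonneg_left h3 hq0.le
    have h2 : 1 - q ≤ Real.exp (-q) := by
      have := Real.add_one_le_exp (-q)
      linarith
    calc (1 - q) ^ B.card ≤ (Real.exp (-q)) ^ B.card :=
          pow_le_pow_left₀ (by linarith) h2 _
      _ = Real.exp (-(q * B.card)) := by rw [← Real.exp_nat_mul]; congr 1; ring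
      _ ≤ Real.exp (-(N : ℝ)) := Real.exp_le_exp.2 (by linarith)

end Pool.Agent.J4H55.HN
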